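import Pool.Agent.MP_826def_gt.BH.Spec

/-!
Specification of the algebraic steps at an arbitrary prime and of the reduction from topological
complexity to equivariant maps on products of spheres.
-/

namespace Pool.Agent.MP_826def_gt.PP

open Set Filter Topology MU

noncomputable section

/-- The multiples of a nilpotent element for the group law with coefficients `a`. -/
def nm {A : Type 1} [CommRing A] (a : ℕ → ℕ → A) (x : A) : ℕ → A
  | 0 => 0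
  | n + 1 => Fm a x (nm a x n)

/-- The series of the multiples. -/
def ns {A : Type 1} [CommRing A] (a : ℕ → ℕ → A) : ℕ → PowerSeries A
  | 0 => 0
  | n + 1 => PowerSeries.mk fun m => ∑ i ∈ Finset.range (m + 1), ∑ j ∈ Finset.range (m + 1),
      a i j * PowerSeries.coeff m (PowerSeries.X ^ i * ns a n ^ j)

/-- The coefficient of `T ^ m` in the `n`-th multiple of `T`. -/
def wn {A : Type 1} [CommRing A] (a : ℕ → ℕ → A) (n m : ℕ) : A := PowerSeries.coeff m (ns a n)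

/-- The `n`-th multiple divided by the variable, at a nilpotent element. -/
def twn {A : Type 1} [CommRing A] (a : ℕ → ℕ → A) (n : ℕ) (x : A) : A :=
  ∑ᶠ m : ℕ, wn a n (m + 1) * x ^ m

/-- The sequence `p, v_1, v_2, …`. -/
def vp {U : Type 1} [CommRing U] (a : ℕ → ℕ → U) (p k : ℕ) : U := wn a p (p ^ k)

/-- Unit and symmetry of the coefficients. -/
def US {A : Type 1} [CommRing A] (a : ℕ → ℕ → A) : Prop :=
  (∀ i, a i 0 = if i = 1 then 1 else 0) ∧ ∀ i j, a i j = a j i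

/-- Basic facts on the multiples. -/
structure S_Nm : Prop where
  us : ∀ {U A : Type 1} [CommRing U] [CommRing A] (φ : U →+* A) {a : ℕ → ℕ → U}, FG a →
    US (cf φ a)
  twn_eq : ∀ {A : Type 1} [CommRing A] (a : ℕ → ℕ → A) (n : ℕ) (x : A) (N : ℕ), x ^ N = 0 →
    twn a n x = ∑ m ∈ Finset.range N, wn a n (m + 1) * x ^ m
  map_wn : ∀ {A B : Type 1} [CommRing A] [CommRing B] (φ : A →+* B) (a : ℕ → ℕ → A) (n m : ℕ),
    φ (wn a n m) = wn (cf φ a) n m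
  map_twn : ∀ {A B : Type 1} [CommRing A] [CommRing B] (φ : A →+* B) (a : ℕ → ℕ → A) (n : ℕ)
    (x : A), IsNilpotent x → φ (twn a n x) = twn (cf φ a) n (φ x)
  wn_zero : ∀ {A : Type 1} [CommRing A] {a : ℕ → ℕ → A}, US a → ∀ n, wn a n 0 = 0
  wn_one : ∀ {A : Type 1} [CommRing A] {a : ℕ → ℕ → A}, US a → ∀ n : ℕ, wn a n 1 = n
  nm_eq : ∀ {A : Type 1} [CommRing A] {a : ℕ → ℕ → A}, US a → ∀ (n : ℕ) (x : A), IsNilpotent x →
    nm a x n = x * twn a n x ∧ x ∣ twn a n x - n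
  nm_add : ∀ {U A : Type 1} [CommRing U] [CommRing A] (φ : U →+* A) {a : ℕ → ℕ → U}, FG a →
    ∀ (x : A), IsNilpotent x → ∀ m n : ℕ,
      nm (cf φ a) x (m + n) = Fm (cf φ a) (nm (cf φ a) x m) (nm (cf φ a) x n)
  grad : ∀ {A : Type 1} [CommRing A] {a : ℕ → ℕ → A} (D : ℤ → AddSubgroup A), US a → 1 ∈ D 0 →
    (∀ d e x y, x ∈ D d → y ∈ D e → x * y ∈ D (d + e)) → (∀ i j : ℕ, a i j ∈ D (1 - i - j)) →
    ∀ n m : ℕ, wn a n m ∈ D (1 - m)
  mem : ∀ {A : Type 1} [CommRing A] {a : ℕ → ℕ → A} (T : Subring A) (m : ℕ), US a →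
    (∀ i j, i + j ≤ m → a i j ∈ T) → ∀ n, wn a n m ∈ T
  step : ∀ {A : Type 1} [CommRing A] {a : ℕ → ℕ → A} (T : Subring A) (m : ℕ), US a → 2 ≤ m →
    (∀ i j, i + j < m → a i j ∈ T) → ∀ n : ℕ, wn a n m -
      ∑ s ∈ Finset.range n, ∑ i ∈ Finset.range (m + 1), (s : A) ^ (m - i) * a i (m - i) ∈ T

/-! ### The structure of the coefficient ring modulo `p` -/

/-- The symmetric cocycle lemma modulo `p`. -/
def S_Coc : Prop :=
  ∀ (p : ℕ), p.Prime → ∀ (R : Type 1) [CommRing R] (S : AddSubgroup R), (∀ x, (p : R) * x ∈ S) →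
    ∀ (k m : ℕ) (al : ℕ → R), p ^ k ∣ m → p ^ k < m → (∀ i ≤ m, al i = al (m - i)) →
    (∀ i s, 1 ≤ i → i < s → s < m →
      (s.choose i : R) * al s - ((m - i).choose (s - i) : R) * al i ∈ S) →
    (∀ i, 1 ≤ i → i < m → ¬ p ^ k ∣ i → al i ∈ S) ∧
      ((¬ p ^ (k + 1) ∣ m ∨ m = p ^ (k + 1)) → al (p ^ k) ∈ S → ∀ i, 1 ≤ i → i < m → al i ∈ S)

/-- The generator of weight `n + 1`. -/
def xp {U : Type 1} [CommRing U] (a : ℕ → ℕ → U) (p n : ℕ) : U :=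
  if n + 2 = p ^ Nat.log p (n + 2) then vp a p (Nat.log p (n + 2))
  else a (p ^ padicValNat p (n + 2)) (n + 2 - p ^ padicValNat p (n + 2))

/-- Generation modulo `p`. -/
def S_Gen : Prop :=
  ∀ (p : ℕ), p.Prime → ∀ (U : Type 1) [CommRing U] (a : ℕ → ℕ → U), FG a →
    (∀ u : U, ∃ c ∈ Subring.closure (range fun q : ℕ × ℕ => a q.1 q.2), ∃ y, u = c + p * y) →
    ∀ u : U, ∃ (P : MvPolynomial ℕ ℤ) (y : U), u = MvPolynomial.aeval (xp a p) P + p * y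

/-- Polynomial generators give the regular sequence. -/
def S_Core : Prop :=
  ∀ (p : ℕ), p.Prime → ∀ (U : Type 1) [CommRing U] (π : ℕ → U →+ U) (x : ℕ → U)
    (θ : U →+* MvPolynomial ℕ ℤ) (w : ℕ → U), Grd π → (∀ n, π (n + 1) (x n) = x n) →
    (∀ u, ∃ (P : MvPolynomial ℕ ℤ) (y : U), u = MvPolynomial.aeval x P + p * y) →
    (∀ u : U, p * u = 0 → u = 0) →
    (∀ d u, π d u = u → (θ u).IsWeightedHomogeneous (fun n => n + 1) d) →
    (∀ n, (θ (x n)).coeff (Finsupp.single n 1) ≠ 0) → w 0 = p →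
    (∀ k, 1 ≤ k → w k = x (p ^ k - 2)) → ∀ r, Reg w r U ∧ (1 : U) ∉ Ideal.span (w '' Iio r)

def S_G : Prop :=
  ∀ (p : ℕ), p.Prime → ∀ (U : Type 1) [CommRing U] (a : ℕ → ℕ → U) (π : ℕ → U →+ U)
    (θ : U →+* MvPolynomial ℕ ℤ),
    FG a → Grd π → (∀ i j d, i + j = d + 1 → π d (a i j) = a i j) →
    (∀ u : U, ∃ c ∈ Subring.closure (range fun q : ℕ × ℕ => a q.1 q.2), ∃ y, u = c + p * y) →
    (∀ u : U, p * u = 0 → u = 0) →
    (∀ d u, π d u = u → (θ u).IsWeightedHomogeneous (fun n => n + 1) d) →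
    (∀ i j n, 1 ≤ i → 1 ≤ j → i + j = n + 2 →
      (θ (a i j)).coeff (Finsupp.single n 1) = ((n + 2).choose i : ℤ)) →
    ∀ r, Reg (vp a p) r U ∧ (1 : U) ∉ Ideal.span (vp a p '' Iio r)

/-! ### The Gysin tower -/

open BH

/-- The `p`-th multiple of the `k`-th variable. -/
def fd {A : Type 1} [CommRing A] {r : ℕ} (b : ℕ → ℕ → A) (p : ℕ) (X : Fin r → A) (k : ℕ) : A :=
  if h : k < r then nm b (X ⟨k, h⟩) p else 0

/-- `E` has an integral initial form of degree `d` that is not zero modulo `p`. -/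
def Ini {A : Type 1} [CommRing A] {r : ℕ} (p : ℕ) (X : Fin r → A) (E : A) (d : ℕ) : Prop :=
  ∃ P : MvPolynomial (Fin r) ℤ, P.IsHomogeneous d ∧
    MvPolynomial.map (Int.castRingHom (ZMod p)) P ≠ 0 ∧ E - MvPolynomial.aeval X P ∈ mX X ^ (d + 1)

/-- The outcome of the division by the level polynomials. -/
structure Lev {A : Type 1} [CommRing A] {r : ℕ} (p : ℕ) (X : Fin r → A) (f w g : ℕ → A)
    (E Q Dl : A) (dE dD : ℕ) : Prop where
  hg : ∀ k < r, g k - w k ∈ mX X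
  hQ : Q - w r ∈ mX X
  hu : ∀ k < r, ∃ u, u ∣ E ∧ E * (f k - u * g k) ∈ Ik f k
  h2 : E * (w 0 - Q * Dl) ∈ Ik f r
  iE : Ini p X E dE
  iD : Ini p X Dl dD
  dE_le : dE ≤ p ^ (2 * r)
  dD_pos : 1 ≤ dD
  dD_le : dD ≤ p ^ r

/-- Points `y S` with initial forms the linear forms with coefficients below `p`, and a polynomial
vanishing at them modulo the ideals generated by its values at the variables. -/
structure Pts {A : Type 1} [CommRing A] {r : ℕ} (p : ℕ) (X : Fin r → A) (f : ℕ → A)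
    (y : (Fin r → ℕ) → A) (Φ : Polynomial A) : Prop where
  emp : y 0 = 0
  sing : ∀ i, y (Pi.single i 1) = X i
  lin : ∀ S, y S - ∑ i, (S i : A) * X i ∈ mX X ^ 2
  val : ∀ i : Fin r, Φ.eval (X i) = f i
  mem : ∀ (S : Fin r → ℕ) (k : ℕ), (∀ i, S i < p) → (∀ i : Fin r, k ≤ i → S i = 0) →
    Φ.eval (y S) ∈ Ik f k

/-- Formal linear combinations. -/
def S_H1a : Prop :=
  ∀ (p : ℕ), p.Prime → ∀ (U A : Type 1) [CommRing U] [CommRing A] (a : ℕ → ℕ → U) (φ : U →+* A)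
    (r : ℕ) (X : Fin r → A), FG a → (∀ i, IsNilpotent (X i)) →
    ∃ (y : (Fin r → ℕ) → A) (Φ : Polynomial A), Pts p X (fd (cf φ a) p X) y Φ ∧
      ∀ k ≤ r, Φ.coeff (p ^ k) = φ (vp a p k)

/-- Division by the level polynomials. -/
def S_H1b : Prop :=
  ∀ (p : ℕ), p.Prime → ∀ (A : Type 1) [CommRing A] (r : ℕ) (X : Fin r → A) (f : ℕ → A)
    (y : (Fin r → ℕ) → A) (Φ : Polynomial A), 1 ≤ r → Pts p X f y Φ →
    ∃ (g : ℕ → A) (E Q Dl : A) (dE dD : ℕ), Lev p X f (fun k => Φ.coeff (p ^ k)) g E Q Dl dE dD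

/-- The `p`-adic shape of the zero divisor. -/
def S_H4 : Prop :=
  ∀ (p : ℕ), p.Prime → ∀ (A : Type 1) [CommRing A] (r : ℕ) (X : Fin r → A) (i₀ i₁ : Fin r)
    (L j' s : ℕ), i₀ ≠ i₁ → 1 ≤ j' → r * s < p ^ L → (∀ i, X i ^ (p ^ L * j' + s + 1) = 0) →
    ∃ (ν : ℕ) (o : ℤ) (W : A), ν ≤ Nat.log 2 (2 * (p ^ L * j')) ∧ ¬ (p : ℤ) ∣ o ∧
      W ∈ mX X ^ (r * (p ^ L * j')) ∧
      ∏ i, (X i₀ - X i) ^ ex i₀ i₁ (p ^ L * j') i =
        (p : A) ^ ν * ((o : A) * (∏ i, X i) ^ (p ^ L * j') + p * W)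

def S_H : Prop :=
  ∀ (p : ℕ), p.Prime → ∀ (r : ℕ) (i₀ i₁ : Fin r), i₀ ≠ i₁ → ∃ c : ℕ, ∀ (L j' s : ℕ), 1 ≤ j' →
    r * s < p ^ L → c * (1 + Nat.log 2 (2 * (p ^ L * j'))) ≤ s →
    ∀ (U A N : Type 1) [CommRing U] [CommRing A] [AddCommGroup N] [Module U N] (a : ℕ → ℕ → U)
      (φ : U →+* A) (X : Fin r → A) (M : ℕ → Type 1) [∀ k, AddCommGroup (M k)]
      [∀ k, Module A (M k)] (ι : N →+ M 0) (η : A →ₗ[A] M 0) (ρ : M 0 →ₗ[A] A)
      (π : ∀ k, M k →ₗ[A] M (k + 1)) (γ : ∀ k, M (k + 1) →ₗ[A] M k),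
      FG a → Reg (vp a p) (r + 1) U → (1 : U) ∉ Ideal.span (vp a p '' Iio r) →
      Reg (vp a p) r N →
      (∀ i, X i ^ (p ^ L * j' + s + 1) = 0) → FreeOn X (p ^ L * j' + s + 1) (φ : U →+ A) →
      FreeOn X (p ^ L * j' + s + 1) ι → (∀ (u : U) n, ι (u • n) = φ u • ι n) →
      (∀ x, ρ (η x) = x) →
      (∀ k : Fin r, Function.Exact (fun m : M k => nm (cf φ a) (X k) p • m) (π k) ∧
        Function.Exact (π k) (γ k) ∧
        Function.Exact (γ k) (fun m : M k => nm (cf φ a) (X k) p • m)) →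
      up M π r (η (∏ i, (X i₀ - X i) ^ ex i₀ i₁ (p ^ L * j') i)) ≠ 0

/-! ### Initial forms -/

section

variable {A : Type 1} [CommRing A] {r p : ℕ} {X : Fin r → A}

theorem Ini.mem {E : A} {d : ℕ} (h : Ini p X E d) : E ∈ mX X ^ d := by
  obtain ⟨P, h1, -, h3⟩ := h
  have := Ideal.add_mem _ (Ideal.pow_le_pow_right (Nat.le_succ d) h3) (aeval_mem (X := X) h1)
  simpa using this

theorem Ini.one (hp : p.Prime) : Ini p X 1 0 := by
  have := Fact.mk hp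
  exact ⟨1, MvPolynomial.isHomogeneous_one _ _, by simp, by simp⟩

theorem Ini.mul (hp : p.Prime) {E E' : A} {d d' : ℕ} (h : Ini p X E d) (h' : Ini p X E' d') :
    Ini p X (E * E') (d + d') := by
  have := Fact.mk hp
  have hE := h.mem
  obtain ⟨P, h1, h2, h3⟩ := h
  obtain ⟨P', h1', h2', h3'⟩ := h'
  refine ⟨P * P', h1.mul h1', by rw [map_mul]; exact mul_ne_zero h2 h2', ?_⟩
  have e : E * E' - MvPolynomial.aeval X (P * P') =
      E * (E' - MvPolynomial.aeval X P') + (E - MvPolynomial.aeval X P) * MvPolynomial.aeval X P' := by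
    rw [map_mul]; ring
  rw [e]
  refine Ideal.add_mem _ ?_ ?_
  · rw [add_assoc, pow_add]; exact Ideal.mul_mem_mul hE h3'
  · rw [add_right_comm, pow_add]; exact Ideal.mul_mem_mul h3 (aeval_mem h1')

theorem Ini.prod (hp : p.Prime) {ι : Type} (s : Finset ι) {E : ι → A} {d : ι → ℕ}
    (h : ∀ i ∈ s, Ini p X (E i) (d i)) : Ini p X (∏ i ∈ s, E i) (∑ i ∈ s, d i) := by
  classical
  induction s using Finset.induction_on with
  | empty => simpa using Ini.one hp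
  | insert a s ha ih =>
    rw [Finset.prod_insert ha, Finset.sum_insert ha]
    exact (h a (Finset.mem_insert_self _ _)).mul hp
      (ih fun i hi => h i (Finset.mem_insert_of_mem hi))

theorem Ini.pow (hp : p.Prime) {E : A} {d : ℕ} (h : Ini p X E d) (n : ℕ) :
    Ini p X (E ^ n) (n * d) := by
  simpa using Ini.prod hp (Finset.range n) (E := fun _ => E) (d := fun _ => d) fun _ _ => h

end

/-! ### From topological complexity to equivariant maps -/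

/-- Functions without common zero, `m i` of them equivariant for the `p`-th roots of unity with
weight `1` in the variable `i` and `-1` in the variable `i₀`. -/
def Sec (p r : ℕ) (i₀ : Fin r) (N : ℕ) (m : Fin r → ℕ) : Prop :=
  ∃ F : (i : Fin r) → Fin (m i) → C(Fin r → Sp N, ℂ),
    (∀ i k (c : Fin r → ℂ) (u v : Fin r → Sp N), (∀ j, c j ^ p = 1) →
      (∀ j, (v j).1 = c j • (u j).1) → c i₀ * F i k v = c i * F i k u) ∧
      ∀ u, ∃ i k, F i k u ≠ 0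

/-- A function on the group that turns with left and right multiplication by `τ`. -/
def S_Psi : Prop :=
  ∀ (p : ℕ), p.Prime → ∀ (G : Type) [Group G] [Fintype G], (Fintype.card G).minFac = p →
    ∀ ζ : ℂ, IsPrimitiveRoot ζ p → ∃ τ : G, orderOf τ = p ∧ ∃ ψ : G → ℂ, (∀ y, ψ y ^ p = 1) ∧
      (∀ y, ψ (τ * y) = ζ * ψ y) ∧ ∀ y, ψ (y * τ) = ζ * ψ y

/-- An equivariant map from the sphere to the join. -/
def S_Emap : Prop :=
  ∀ (p : ℕ), p.Prime → ∀ (G : Type) [Group G] [Fintype G] (τ : G), orderOf τ = p →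
    ∀ ζ : ℂ, IsPrimitiveRoot ζ p → ∀ N k : ℕ, 2 * N ≤ k + 1 →
    ∃ e : Sp N → H44.EG G k, Continuous e ∧ ∀ u v : Sp N, v.1 = ζ • u.1 → e v = τ • e u

def S_TC : Prop :=
  ∀ (p : ℕ), p.Prime → ∀ (G : Type) [Group G] [Fintype G], (Fintype.card G).minFac = p →
    ∀ (r : ℕ) (i₀ : Fin r) (N k n : ℕ) (m : Fin r → ℕ), 2 * N ≤ k + 1 →
      n + 1 ≤ 2 * ∑ i, m i → H44.Cov (H44.diag r (H44.BG G k)) n → Sec p r i₀ N m

/-- The main topological theorem. -/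
def S_NoSec : Prop :=
  ∀ (p : ℕ), p.Prime → ∀ (r : ℕ) (i₀ i₁ : Fin r), i₀ ≠ i₁ → ∃ c : ℕ, ∀ (L j' s : ℕ), 1 ≤ j' →
    r * s < p ^ L → c * (1 + Nat.log 2 (2 * (p ^ L * j'))) ≤ s →
    ¬ Sec p r i₀ (p ^ L * j' + s + 1) (ex i₀ i₁ (p ^ L * j'))

def S_Rate : Prop :=
  ∀ r p : ℕ, 2 ≤ r → p.Prime → ∃ C : ℝ, ∀ (G : Type) [Group G] [Fintype G],
    (Fintype.card G).minFac = p → ∀ n : ℕ, 1 ≤ n →
      |(H44.alpha G r n : ℝ) - (n : ℝ) / (r : ℝ)| ≤ C * (1 + Real.log n)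

end

end Pool.Agent.MP_826def_gt.PP
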