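import Pool.Agent.MP_826def_gt.BG.Core345

/-!
A graded ring that is generated modulo a prime by elements with nonzero linear terms is a polynomial
ring modulo that prime.
-/

namespace Pool.Agent.MP_826def_gt.PP

open MU BG MvPolynomial Set

noncomputable section

variable {U : Type 1} [CommRing U] {π : ℕ → U →+ U} {x : ℕ → U}

/-- A polynomial whose value is divisible by `p` is divisible by `p`. -/
lemma dvd_of_ev (p : ℕ) (θ : U →+* MvPolynomial ℕ ℤ) (hπ : Grd π)
    (hx : ∀ n, π (n + 1) (x n) = x n)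
    (gen : ∀ u, ∃ (P : MvPolynomial ℕ ℤ) (y : U), u = aeval x P + p * y)
    (hθ : ∀ d u, π d u = u → (θ u).IsWeightedHomogeneous (fun n => n + 1) d)
    (lin : ∀ n, (θ (x n)).coeff (Finsupp.single n 1) ≠ 0) (P : MvPolynomial ℕ ℤ) (u : U)
    (h : aeval x P = p * u) : C (p : ℤ) ∣ P := by
  have hι : ∀ Q : MvPolynomial ℕ ℤ, θ (aeval x Q) = aeval (fun n => θ (x n)) Q := by
    intro Q
    induction Q using MvPolynomial.induction_on with
    | C a => simp
    | add p q hp hq => simp only [map_add, hp, hq]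
    | mul_X p n hp => simp only [map_mul, hp, aeval_X]
  have inj := tri_inj (fun n => θ (x n)) (fun n => hθ _ _ (hx n)) lin
  have two : ∀ d v, π d (p * v) = p * π d v := fun d v => by
    rw [← nsmul_eq_mul, map_nsmul, nsmul_eq_mul]
  rw [C_dvd_iff_dvd_coeff]
  intro m
  set d := Finsupp.weight (fun n : ℕ => n + 1) m with hd
  let T : U →ₗ[ℤ] MvPolynomial ℕ ℤ := ((θ : U →+ MvPolynomial ℕ ℤ).comp (π d)).toIntLinearMap
  let J : MvPolynomial ℕ ℤ →ₗ[ℤ] MvPolynomial ℕ ℤ := (aeval fun n => θ (x n)).toLinearMap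
  have hfg : (LinearMap.range T).FG := by
    refine (wt_fg d).of_le ?_
    rintro _ ⟨v, rfl⟩
    exact hθ d (π d v) (by rw [hπ.proj, if_pos rfl])
  obtain ⟨r, hr, hle⟩ := Submodule.exists_sub_one_mem_and_smul_le_of_fg_of_le_sup
    (I := Ideal.span {(p : ℤ)}) (N := LinearMap.range J) hfg le_rfl (by
      rintro _ ⟨v, rfl⟩
      obtain ⟨Q, y, rfl⟩ := gen v
      have : T (aeval x Q + p * y) =
          J (weightedHomogeneousComponent (fun n : ℕ => n + 1) d Q) + (p : ℤ) • T y := by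
        show θ (π d _) = aeval _ _ + (p : ℤ) • θ (π d y)
        rw [map_add, proj_ev hπ hx, two, map_add, hι, map_mul, map_natCast, zsmul_eq_mul,
          Int.cast_natCast]
      rw [this]
      exact Submodule.add_mem_sup ⟨_, rfl⟩
        (Submodule.smul_mem_smul (Ideal.subset_span rfl) ⟨y, rfl⟩))
  obtain ⟨Q, hQ⟩ := hle (Submodule.smul_mem_pointwise_smul (T u) r _ ⟨u, rfl⟩)
  have e : r • weightedHomogeneousComponent (fun n : ℕ => n + 1) d P = (p : ℤ) • Q := by
    apply inj
    rw [map_zsmul, map_zsmul, ← hι, ← proj_ev hπ hx, h, two, map_mul, map_natCast]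
    have hQ' : aeval (fun n => θ (x n)) Q = r • θ (π d u) := hQ
    rw [hQ', smul_comm, zsmul_eq_mul _ (p : ℤ), Int.cast_natCast]
  have e2 := congrArg (coeff m) e
  rw [coeff_smul, coeff_smul, coeff_weightedHomogeneousComponent, if_pos rfl, smul_eq_mul,
    smul_eq_mul] at e2
  obtain ⟨t, ht⟩ := Ideal.mem_span_singleton.1 hr
  exact ⟨coeff m Q - t * coeff m P, by linear_combination e2 - coeff m P * ht⟩

theorem coreP (p : ℕ) (hp : p.Prime) (θ : U →+* MvPolynomial ℕ ℤ) (w : ℕ → U) (s : ℕ → ℕ)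
    (hπ : Grd π) (hx : ∀ n, π (n + 1) (x n) = x n)
    (gen : ∀ u, ∃ (P : MvPolynomial ℕ ℤ) (y : U), u = aeval x P + p * y)
    (tf : ∀ u : U, p * u = 0 → u = 0)
    (hθ : ∀ d u, π d u = u → (θ u).IsWeightedHomogeneous (fun n => n + 1) d)
    (lin : ∀ n, (θ (x n)).coeff (Finsupp.single n 1) ≠ 0) (w0 : w 0 = p)
    (wk : ∀ k, 1 ≤ k → w k = x (s k)) (hs : ∀ j k, 1 ≤ j → j < k → s j ≠ s k) (r : ℕ) :
    Reg w r U ∧ (1 : U) ∉ Ideal.span (w '' Iio r) := by
  have : Fact p.Prime := ⟨hp⟩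
  choose P y hP using gen
  let ρ : MvPolynomial ℕ ℤ →+* MvPolynomial ℕ (ZMod p) := map (Int.castRingHom (ZMod p))
  have key : ∀ (Q Q' : MvPolynomial ℕ ℤ) (v : U), aeval x Q = aeval x Q' + p * v → ρ Q = ρ Q' := by
    intro Q Q' v h
    rw [← sub_eq_zero, ← map_sub]
    exact (C_dvd_iff_zmod p _).1 (dvd_of_ev p θ hπ hx (fun u => ⟨P u, y u, hP u⟩) hθ lin _ v
      (by rw [map_sub, h]; ring))
  let ψ : U →+* MvPolynomial ℕ (ZMod p) :=
    { toFun := fun u => ρ (P u)
      map_one' := by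
        rw [key (P 1) 1 (-y 1) (by rw [map_one]; linear_combination -hP 1), map_one]
      map_zero' := by
        rw [key (P 0) 0 (-y 0) (by rw [map_zero]; linear_combination -hP 0), map_zero]
      map_add' := fun u v => by
        rw [← map_add]
        exact key _ _ (y u + y v - y (u + v))
          (by rw [map_add]; linear_combination hP u + hP v - hP (u + v))
      map_mul' := fun u v => by
        rw [← map_mul]
        exact key _ _ (y u * v + aeval x (P u) * y v - y (u * v))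
          (by rw [map_mul]; linear_combination v * hP u + aeval x (P u) * hP v - hP (u * v)) }
  have ψev : ∀ Q, ψ (aeval x Q) = ρ Q := fun Q =>
    key _ _ (-y (aeval x Q)) (by linear_combination -hP (aeval x Q))
  have ψx : ∀ n, ψ (x n) = X n := fun n => by
    rw [← aeval_X (R := ℤ) x n, ψev, map_X]
  have ψ2 : ψ p = 0 := by
    rw [map_natCast]
    exact CharP.cast_eq_zero _ p
  have ψs : Function.Surjective ψ := fun f => by
    obtain ⟨Q, rfl⟩ := map_surjective (Int.castRingHom (ZMod p)) (ZMod.ringHom_surjective _) f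
    exact ⟨_, ψev Q⟩
  have ψk : ∀ u, ψ u = 0 → (p : U) ∣ u := fun u hu => by
    obtain ⟨Q, hQ⟩ := (C_dvd_iff_zmod p (P u)).2 hu
    refine ⟨aeval x Q + y u, ?_⟩
    have := hP u
    rw [hQ, map_mul, aeval_C] at this
    rw [mul_add]
    simpa using this
  have hmap : ∀ k, Ideal.map ψ (Ideal.span (w '' Iio k)) =
      Ideal.span (X '' {n | ∃ j, 1 ≤ j ∧ j < k ∧ n = s j}) := by
    intro k
    rw [Ideal.map_span]
    apply le_antisymm
    · rw [Ideal.span_le]
      rintro _ ⟨_, ⟨j, hj, rfl⟩, rfl⟩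
      rcases Nat.eq_zero_or_pos j with rfl | h
      · rw [w0, ψ2]
        exact Ideal.zero_mem _
      · rw [wk j h, ψx]
        exact Ideal.subset_span ⟨_, ⟨j, h, hj, rfl⟩, rfl⟩
    · apply Ideal.span_mono
      rintro _ ⟨_, ⟨j, h, hj, rfl⟩, rfl⟩
      exact ⟨_, ⟨j, hj, rfl⟩, by rw [wk j h, ψx]⟩
  constructor
  · intro k _ u
    rw [Ideal.smul_top_eq_map, Algebra.algebraMap_self, Ideal.map_id]
    simp only [Submodule.restrictScalars_mem, smul_eq_mul]
    intro hu
    rcases Nat.eq_zero_or_pos k with rfl | hk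
    · have : Iio 0 = (∅ : Set ℕ) := by simp
      rw [this, image_empty, Ideal.span_empty, Ideal.mem_bot] at hu ⊢
      exact tf u (w0 ▸ hu)
    · have h1 := Ideal.mem_map_of_mem ψ hu
      rw [hmap, map_mul, wk k hk, ψx, mem_ideal_span_X_image] at h1
      have h2 : ψ u ∈ Ideal.map ψ (Ideal.span (w '' Iio k)) := by
        rw [hmap, mem_ideal_span_X_image]
        intro m hm
        obtain ⟨i, hi, hne⟩ := h1 (Finsupp.single (s k) 1 + m)
          (by rwa [mem_support_iff, coeff_X_mul, ← mem_support_iff])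
        refine ⟨i, hi, ?_⟩
        obtain ⟨j, h, hj, rfl⟩ := hi
        rwa [Finsupp.add_apply, Finsupp.single_eq_of_ne (hs j k h hj), zero_add] at hne
      obtain ⟨v, hv, hvu⟩ := (Ideal.mem_map_iff_of_surjective ψ ψs).1 h2
      obtain ⟨t, ht⟩ := ψk (u - v) (by rw [map_sub, hvu, sub_self])
      have : u = v + w 0 * t := by rw [w0, ← ht]; ring
      rw [this]
      exact Ideal.add_mem _ hv (Ideal.mul_mem_right _ _ (Ideal.subset_span ⟨0, hk, rfl⟩))
  · intro h
    have h1 := Ideal.mem_map_of_mem ψ h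
    rw [hmap, map_one, mem_ideal_span_X_image] at h1
    obtain ⟨i, -, hi⟩ := h1 0 (by simp)
    exact hi rfl

end

end Pool.Agent.MP_826def_gt.PP
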