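import Pool.Agent.MP_826def_gt.MU.Alg

/-! The binomial expansion of the zero divisor at a prime `p`. -/

namespace Pool.Agent.MP_826def_gt.PP

namespace Bin

open Finset

variable {p : ℕ}

lemma even_choose (hp : p.Prime) {L c t : ℕ} (h0 : 0 < t) (ht : t < p ^ L) :
    p ∣ (p ^ L * c).choose t := by
  rcases Nat.eq_zero_or_pos c with rfl | hc
  · rw [mul_zero, Nat.choose_eq_zero_of_lt h0]; exact dvd_zero _
  obtain ⟨t, rfl⟩ : ∃ u, t = u + 1 := ⟨t - 1, by omega⟩
  have hpos : 0 < p ^ L * c := Nat.mul_pos (pow_pos hp.pos _) hc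
  obtain ⟨n, hn⟩ : ∃ n, p ^ L * c = n + 1 := ⟨p ^ L * c - 1, by omega⟩
  by_contra hodd
  have h1 := Nat.add_one_mul_choose_eq n t
  rw [← hn] at h1
  have h2 : p ^ L ∣ (t + 1) * (p ^ L * c).choose (t + 1) := by
    rw [mul_comm, ← h1, mul_assoc]; exact Dvd.intro _ rfl
  have h3 : Nat.Coprime (p ^ L) ((p ^ L * c).choose (t + 1)) :=
    Nat.Coprime.pow_left _ (hp.coprime_iff_not_dvd.2 hodd)
  have := Nat.le_of_dvd h0 (h3.dvd_of_dvd_mul_right h2)
  omega

lemma odd_choose (hp : p.Prime) {L c t : ℕ} (ht : t < p ^ L) :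
    ¬ p ∣ (p ^ L * c + t).choose t := by
  rw [Nat.add_choose_eq, ← Finset.add_sum_erase _ _ (show (0, t) ∈ antidiagonal t by simp)]
  have : p ∣ ∑ x ∈ (antidiagonal t).erase (0, t), (p ^ L * c).choose x.1 * t.choose x.2 := by
    refine Finset.dvd_sum fun x hx => Dvd.dvd.mul_right (even_choose hp ?_ ?_) _
    · rw [mem_erase, HasAntidiagonal.mem_antidiagonal] at hx
      by_contra h
      exact hx.1 (Prod.ext (by simp; omega) (by simp; omega))
    · rw [mem_erase, HasAntidiagonal.mem_antidiagonal] at hx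
      omega
  simp only [Nat.choose_zero_right, Nat.choose_self, mul_one]
  exact fun h => hp.not_dvd_one ((Nat.dvd_add_left this).1 h)

lemma dvd_up (hp : p.Prime) {L c t ν : ℕ} (h0 : 0 < t) (ht : t < p ^ L)
    (hν : p ^ ν ∣ (2 * (p ^ L * c)).choose (p ^ L * c)) :
    p ^ (ν + 1) ∣ (2 * (p ^ L * c)).choose (p ^ L * c + t) := by
  have h1 := @Nat.choose_mul (2 * (p ^ L * c)) (p ^ L * c + t) (p ^ L * c) (by omega)
  rw [show 2 * (p ^ L * c) - p ^ L * c = p ^ L * c by omega, Nat.add_sub_cancel_left,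
    Nat.choose_symm_add] at h1
  have h2 : p ^ (ν + 1) ∣ (2 * (p ^ L * c)).choose (p ^ L * c + t) * (p ^ L * c + t).choose t := by
    rw [h1, pow_succ]; exact mul_dvd_mul hν (even_choose hp h0 ht)
  exact (Nat.Coprime.pow_left _ (hp.coprime_iff_not_dvd.2
    (odd_choose hp ht))).dvd_of_dvd_mul_right h2

lemma dvd_near (hp : p.Prime) {L c e ν s : ℕ} (hs : s < p ^ L) (h1 : e ≤ p ^ L * c + s) (h2 : p ^ L * c ≤ e + s)
    (he : e ≠ p ^ L * c) (hν : p ^ ν ∣ (2 * (p ^ L * c)).choose (p ^ L * c)) :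
    p ^ (ν + 1) ∣ (2 * (p ^ L * c)).choose e := by
  rcases lt_or_gt_of_ne he with h | h
  · rw [Nat.choose_symm_of_eq_add (show 2 * (p ^ L * c) = e + (p ^ L * c + (p ^ L * c - e)) by
      omega)]
    exact dvd_up hp (by omega) (by omega) hν
  · rw [show e = p ^ L * c + (e - p ^ L * c) by omega]
    exact dvd_up hp (by omega) (by omega) hν

lemma sum_ex {r : ℕ} {i₀ i₁ : Fin r} (h : i₀ ≠ i₁) (j : ℕ) : ∑ i, MU.ex i₀ i₁ j i = r * j := by
  have h1 : ∀ i, MU.ex i₀ i₁ j i + (if i = i₀ then j else 0) = j + if i = i₁ then j else 0 := by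
    intro i
    unfold MU.ex
    by_cases h0 : i = i₀
    · subst h0; simp [h]
    · by_cases h1 : i = i₁
      · subst h1; simp [h0]; omega
      · simp [h0, h1]
  have h2 := Finset.sum_congr rfl fun i (_ : i ∈ (univ : Finset (Fin r))) => h1 i
  simp only [sum_add_distrib, sum_ite_eq', mem_univ, if_true, sum_const, card_univ,
    Fintype.card_fin, smul_eq_mul] at h2
  omega

theorem main (hp : p.Prime) {r : ℕ} {i₀ i₁ : Fin r} (h : i₀ ≠ i₁) {L j' s : ℕ} (hs : r * s < p ^ L)
    {A : Type*} [CommRing A] (X : Fin r → A) (hX : ∀ i, X i ^ (p ^ L * j' + s + 1) = 0) :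
    ∃ (ν : ℕ) (o : ℤ) (W : A), ν ≤ Nat.log p (2 * (p ^ L * j')) ∧ ¬ (p : ℤ) ∣ o ∧
      W ∈ Ideal.span (Set.range X) ^ (r * (p ^ L * j')) ∧
      ∏ i, (X i₀ - X i) ^ MU.ex i₀ i₁ (p ^ L * j') i =
        (p : A) ^ ν * (o * (∏ i, X i) ^ (p ^ L * j') + p * W) := by
  classical
  have hr : 2 ≤ r := by
    have := i₀.2
    have := i₁.2
    have : (i₀ : ℕ) ≠ i₁ := fun e => h (Fin.ext e)
    omega
  have hs2 : 2 * s < p ^ L := lt_of_le_of_lt (Nat.mul_le_mul_right s hr) hs
  obtain ⟨j, hj⟩ : ∃ j, j = p ^ L * j' := ⟨_, rfl⟩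
  have hne : (2 * j).choose j ≠ 0 := (Nat.choose_pos (by omega)).ne'
  obtain ⟨ν, o, ho, hν⟩ := Nat.exists_eq_pow_mul_and_not_dvd hne p hp.ne_one
  have hdv : p ^ ν ∣ (2 * j).choose j := Dvd.intro _ hν.symm
  set a : Fin r → ℕ := MU.ex i₀ i₁ j with ha
  have a0 : a i₀ = 0 := by simp [ha, MU.ex]
  have a1 : a i₁ = 2 * j := by simp [ha, MU.ex, h.symm]
  have a2 : ∀ i, i ≠ i₀ → i ≠ i₁ → a i = j := fun i h0 h1 => by simp [ha, MU.ex, h0, h1]
  set T : (Fin r → ℕ) → A := fun e => ∏ i, ((-X i) ^ e i * X i₀ ^ (a i - e i)) with hT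
  set c : (Fin r → ℕ) → ℕ := fun e => ∏ i, (a i).choose (e i) with hc
  set e₀ : Fin r → ℕ := fun i => if i = i₀ then 0 else j with he₀
  set P := Fintype.piFinset fun i => range (a i + 1) with hP
  have hz : ∏ i, (X i₀ - X i) ^ a i = ∑ e ∈ P, (c e : A) * T e := by
    have : ∀ i, (X i₀ - X i) ^ a i =
        ∑ m ∈ range (a i + 1), (-X i) ^ m * X i₀ ^ (a i - m) * ((a i).choose m : A) := by
      intro i
      rw [← add_pow]; congr 1; ring
    simp only [this]
    rw [Finset.prod_univ_sum]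
    refine Finset.sum_congr rfl fun e _ => ?_
    simp only [hc, hT, Nat.cast_prod, prod_mul_distrib]
    ring
  have hP' : ∀ e ∈ P, ∀ i, e i ≤ a i := fun e he i => by
    have := Fintype.mem_piFinset.1 he i
    rw [mem_range] at this
    omega
  have hmem : ∀ e ∈ P, T e ∈ Ideal.span (Set.range X) ^ (r * j) := by
    intro e he
    rw [← sum_ex h j, ← Finset.prod_pow_eq_pow_sum]
    refine Ideal.prod_mem_prod fun i _ => ?_
    rw [← ha, show a i = e i + (a i - e i) by have := hP' e he i; omega, pow_add,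
      Nat.add_sub_cancel_left]
    exact Ideal.mul_mem_mul
      (Ideal.pow_mem_pow (neg_mem (Ideal.subset_span (Set.mem_range_self i))) _)
      (Ideal.pow_mem_pow (Ideal.subset_span (Set.mem_range_self i₀)) _)
  have he₀P : e₀ ∈ P := by
    refine Fintype.mem_piFinset.2 fun i => mem_range.2 ?_
    by_cases h0 : i = i₀
    · simp [he₀, h0]
    · by_cases h1 : i = i₁
      · subst h1; simp only [he₀, h0, if_false, a1]; omega
      · simp only [he₀, h0, if_false, a2 i h0 h1]; omega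
  have hrest : ∀ e ∈ P.erase e₀, T e = 0 ∨ p ^ (ν + 1) ∣ c e := by
    intro e he
    obtain ⟨hne₀, he⟩ := mem_erase.1 he
    by_cases hT0 : T e = 0
    · exact Or.inl hT0
    right
    have b1 : ∀ i, e i ≤ j + s := by
      intro i
      by_contra hlt
      refine hT0 (Finset.prod_eq_zero (mem_univ i) ?_)
      rw [neg_pow, pow_eq_zero_of_le (show p ^ L * j' + s + 1 ≤ e i by omega) (hX i)]
      simp
    have b2 : ∑ i, (a i - e i) ≤ j + s := by
      by_contra hlt
      refine hT0 ?_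
      simp only [hT, prod_mul_distrib]
      rw [Finset.prod_pow_eq_pow_sum,
        pow_eq_zero_of_le (show p ^ L * j' + s + 1 ≤ _ by omega) (hX i₀), mul_zero]
    have b3 : a i₁ - e i₁ ≤ j + s :=
      (Finset.single_le_sum (f := fun i => a i - e i) (fun _ _ => Nat.zero_le _)
        (mem_univ i₁)).trans b2
    have b4 := b1 i₁
    by_cases h1 : e i₁ = j
    · obtain ⟨i, hi⟩ := Function.ne_iff.1 hne₀
      have hi0 : i ≠ i₀ := by
        rintro rfl
        have := hP' e he i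
        simp only [he₀, if_true] at hi
        omega
      simp only [he₀, hi0, if_false] at hi
      have hi1 : i ≠ i₁ := by rintro rfl; exact hi h1
      have b5 := (Finset.add_le_sum (f := fun i => a i - e i) (fun _ _ => Nat.zero_le _)
        (mem_univ i₁) (mem_univ i) hi1.symm).trans b2
      have b6 := hP' e he i
      have b7 := a2 i hi0 hi1
      have d1 : p ∣ (a i).choose (e i) := by
        rw [b7, Nat.choose_symm_of_eq_add (show j = e i + (j - e i) by omega)]
        have := @even_choose p hp L j' (j - e i) (by omega) (by omega)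
        rwa [← hj] at this
      have d2 : (a i₁).choose (e i₁) * (a i).choose (e i) ∣ c e := by
        rw [← Finset.prod_pair (f := fun i => (a i).choose (e i)) hi1.symm]
        exact Finset.prod_dvd_prod_of_subset _ _ _ (subset_univ _)
      refine Dvd.dvd.trans ?_ d2
      rw [pow_succ, a1, h1]
      exact mul_dvd_mul hdv d1
    · refine Dvd.dvd.trans ?_ (Finset.dvd_prod_of_mem (fun i => (a i).choose (e i)) (mem_univ i₁))
      rw [a1, hj]
      exact dvd_near hp (s := s) (by omega) (by omega) (by omega) (by omega) (hj ▸ hdv)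
  obtain ⟨W, hW, hWe⟩ : ∃ W ∈ Ideal.span (Set.range X) ^ (r * j),
      ∑ e ∈ P.erase e₀, (c e : A) * T e = (p : A) ^ (ν + 1) * W := by
    refine Finset.sum_induction _
      (fun z => ∃ W ∈ Ideal.span (Set.range X) ^ (r * j), z = (p : A) ^ (ν + 1) * W) ?_
      ⟨0, zero_mem _, by simp⟩ ?_
    · rintro _ _ ⟨u, hu, rfl⟩ ⟨v, hv, rfl⟩
      exact ⟨u + v, add_mem hu hv, by ring⟩
    · intro e he
      rcases hrest e he with h0 | ⟨k, hk⟩
      · exact ⟨0, zero_mem _, by simp [h0]⟩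
      · exact ⟨k * T e, Ideal.mul_mem_left _ _ (hmem e (mem_of_mem_erase he)), by
          rw [hk]; push_cast; ring⟩
  have hc0 : c e₀ = p ^ ν * o := by
    rw [← hν]
    simp only [hc]
    rw [Finset.prod_eq_single i₁]
    · simp [a1, he₀, h.symm]
    · intro i _ h1
      by_cases h0 : i = i₀
      · simp [he₀, h0]
      · simp [he₀, h0, a2 i h0 h1]
    · simp
  have hT0 : T e₀ = (-1) ^ (∑ i, e₀ i) * (∏ i, X i) ^ j := by
    simp only [hT, prod_mul_distrib]
    rw [Finset.prod_eq_single i₁ (f := fun i => X i₀ ^ (a i - e₀ i))]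
    · rw [← Finset.prod_pow_eq_pow_sum, ← Finset.prod_pow, ← Finset.prod_mul_distrib,
        ← Finset.mul_prod_erase _ _ (mem_univ i₀), ← Finset.mul_prod_erase _ _ (mem_univ i₀)]
      rw [Finset.prod_congr rfl (g := fun i => (-1) ^ e₀ i * X i ^ j) fun i hi => by
        rw [neg_pow]; simp [he₀, (mem_erase.1 hi).1]]
      simp only [he₀, if_true, h.symm, if_false, a1, pow_zero, one_mul]
      rw [show 2 * j - j = j by omega]
      ring
    · intro i _ h1
      by_cases h0 : i = i₀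
      · simp [h0, a0]
      · simp [he₀, h0, a2 i h0 h1]
    · simp
  refine ⟨ν, (-1) ^ (∑ i, e₀ i) * o, W, ?_, ?_, hj ▸ hW, ?_⟩
  · rw [← hj]
    exact ((hp.pow_dvd_iff_le_factorization hne).1 hdv).trans
      Nat.factorization_choose_le_log
  · rw [(isUnit_neg_one.pow _).dvd_mul_left, Int.natCast_dvd_natCast]
    exact ho
  · rw [← hj, ← ha, hz, ← Finset.add_sum_erase _ _ he₀P, hWe, hc0, hT0]
    push_cast
    ring

end Bin

end Pool.Agent.MP_826def_gt.PP
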