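import Pool.Agent.MP_826def_gt.PP.Alg
import Pool.Agent.MP_826def_gt.BD.Spec
import Pool.Agent.MP_826def_gt.BQ.Kit
import Pool.Agent.MP_826def_gt.D11.RP

/-!
Statements of the geometric steps at an arbitrary prime: tensor powers, lens spaces, the cyclic
power construction and the descent.
-/

namespace Pool.Agent.MP_826def_gt.PP

open Set Topology MU

noncomputable section

/-! ### Tensor powers of the tautological bundle -/

/-- The space of tensors. -/
abbrev ten (N n : ℕ) : FD := ⟨(Fin n → Fin N) → ℂ⟩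

/-- The tensor power of a vector. -/
def tp {N : ℕ} (n : ℕ) (u : Fin N → ℂ) : (Fin n → Fin N) → ℂ := fun I => ∏ k, u (I k)

/-- The tensor power of a matrix as an operator. -/
def mvt {N : ℕ} (n : ℕ) (q : Fin N → Fin N → ℂ) :
    ((Fin n → Fin N) → ℂ) →L[ℂ] (Fin n → Fin N) → ℂ :=
  LinearMap.toContinuousLinearMap (Matrix.toLin' (Matrix.of fun I J => ∏ k, q (I k) (J k)))

theorem mvt_apply {N : ℕ} (n : ℕ) (q : Fin N → Fin N → ℂ) (y : (Fin n → Fin N) → ℂ)
    (I : Fin n → Fin N) : mvt n q y I = ∑ J, (∏ k, q (I k) (J k)) * y J := rfl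

theorem mvt_cont {N : ℕ} (n : ℕ) : Continuous (mvt (N := N) n) :=
  continuous_clm_apply.2 fun y => continuous_pi fun I => by
    simp only [mvt_apply]
    fun_prop

theorem mvt_tp {N : ℕ} (n : ℕ) (q : Fin N → Fin N → ℂ) (u : Fin N → ℂ) :
    mvt n q (tp n u) = tp n (mv q u) := by
  funext I
  simp only [mvt_apply, tp, mv_apply, ← Finset.prod_mul_distrib]
  rw [Finset.prod_univ_sum, Fintype.piFinset_univ]

/-- The linear form with value one on the tensor power of `u`. -/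
def lft {N : ℕ} (n : ℕ) (u : Fin N → ℂ) : ((Fin n → Fin N) → ℂ) →L[ℂ] ℂ :=
  ∑ J, ((starRingEnd ℂ) (tp n u J) / ((∑ k, Complex.normSq (u k) : ℝ) : ℂ) ^ n) •
    (ContinuousLinearMap.proj J : ((Fin n → Fin N) → ℂ) →L[ℂ] ℂ)

theorem lft_apply {N : ℕ} (n : ℕ) (u : Fin N → ℂ) (y : (Fin n → Fin N) → ℂ) : lft n u y =
    (∑ J, (starRingEnd ℂ) (tp n u J) * y J) / ((∑ k, Complex.normSq (u k) : ℝ) : ℂ) ^ n := by
  rw [lft, sum_apply, Finset.sum_div]
  exact Finset.sum_congr rfl fun j _ => div_mul_eq_mul_div _ _ _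

theorem mvt_pj {N : ℕ} (n : ℕ) (u : Fin N → ℂ) (y : (Fin n → Fin N) → ℂ) :
    mvt n (pj u) y = lft n u y • tp n u := by
  funext I
  rw [mvt_apply, lft_apply, Pi.smul_apply, smul_eq_mul, Finset.sum_div, Finset.sum_mul]
  refine Finset.sum_congr rfl fun J _ => ?_
  simp only [pj, tp, Finset.prod_div_distrib, Finset.prod_mul_distrib, map_prod,
    Finset.prod_const, Finset.card_univ, Fintype.card_fin]
  ring

theorem mvt_self {N : ℕ} (n : ℕ) {u : Fin N → ℂ} (hu : u ≠ 0) :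
    mvt n (pj u) (tp n u) = tp n u := by rw [mvt_tp, mv_pj_self hu]

theorem mvt_idem {N m : ℕ} (n : ℕ) (q : CP N m) : mvt n q.1 ∘L mvt n q.1 = mvt n q.1 := by
  obtain ⟨u, hu, -, e⟩ := q.2
  have h0 : u ≠ 0 := fun e => by rw [e, norm_zero] at hu; exact zero_ne_one hu
  refine ContinuousLinearMap.ext fun y => ?_
  rw [ContinuousLinearMap.comp_apply, ← e]
  conv_lhs => rw [mvt_pj n u y, map_smul, mvt_self n h0, ← mvt_pj]

/-- The tensor powers of the tautological line bundle. -/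
abbrev tpw (n N m : ℕ) : Bun (CP N m) :=
  ⟨ten N n, ⟨fun q => mvt n q.1, (mvt_cont n).comp continuous_subtype_val⟩, mvt_idem n⟩

/-- Facts on tensor powers of vectors. -/
structure S_Tp : Prop where
  smul : ∀ {N : ℕ} (n : ℕ) (c : ℂ) (u : Fin N → ℂ), tp n (c • u) = c ^ n • tp n u
  norm : ∀ {N : ℕ} (n : ℕ) (u : Fin N → ℂ), ‖u‖ = 1 → ‖tp n u‖ = 1
  inj : ∀ {N : ℕ} (n : ℕ) (u v : Fin N → ℂ), 1 ≤ n → u ≠ 0 → tp n u = tp n v →
    ∃ c : ℂ, c ^ n = 1 ∧ v = c • u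
  cont : ∀ {N : ℕ} (n : ℕ), Continuous (tp (N := N) n)
  lft_self : ∀ {N : ℕ} (n : ℕ) (u : Fin N → ℂ), u ≠ 0 → lft n u (tp n u) = 1
  lft_smul : ∀ {N : ℕ} (n : ℕ) (c : ℂ) (u : Fin N → ℂ), ‖c‖ = 1 →
    lft n (c • u) = (c ^ n)⁻¹ • lft n u
  lft_cont : ∀ {N : ℕ} (n : ℕ), ContinuousOn (lft (N := N) n) {u | u ≠ 0}
  root : ∀ {N : ℕ} (n : ℕ) (u : Fin N → ℂ) (M : (Fin n → Fin N) → ℂ), 1 ≤ n → ‖u‖ = 1 → ‖M‖ = 1 →
    mvt n (pj u) M = M → ∃ c : ℂ, ‖c‖ = 1 ∧ pj (c • u) = pj u ∧ tp n (c • u) = M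
  rk : ∀ n N m : ℕ, (tpw n N m).Rk 1

/-! ### Lens spaces -/

/-- The lens space as the sphere bundle of a tensor power of the tautological bundle. -/
abbrev LS (p N m : ℕ) : Type := BQ.Sph (tpw p N m)

/-- The projection to complex projective space. -/
abbrev LS.π (p N m : ℕ) : C(LS p N m, CP N m) := BQ.sp (tpw p N m)

/-- The inclusion of lens spaces. -/
abbrev LS.incl (p N : ℕ) {m m' : ℕ} (hm : m ≤ m') : C(LS p N m, LS p N m') :=
  BQ.sm (tpw p N m') (CP.incl N hm)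

/-- The sum of the tensor powers with exponents `1, …, n`. -/
abbrev red (n p N m : ℕ) : Bun (LS p N m) :=
  ⟨⟨∀ a : Fin n, (Fin (a + 1) → Fin N) → ℂ⟩,
    ⟨fun z => ContinuousLinearMap.pi fun a =>
      mvt (a + 1) (LS.π p N m z).1 ∘L ContinuousLinearMap.proj a,
      continuous_clm_apply.2 fun _ => continuous_pi fun a => (((mvt_cont (a + 1)).comp
        (continuous_subtype_val.comp (LS.π p N m).continuous)).clm_apply continuous_const)⟩,
    fun z => ContinuousLinearMap.ext fun y => funext fun a =>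
      congrArg (fun r : _ →L[ℂ] _ => r (y a)) (mvt_idem (a + 1) (LS.π p N m z))⟩

/-- A bundle with frames of the shape of a simplex that are determined up to permutation. -/
structure Cov (n : ℕ) (S : Type) [TopologicalSpace S] {B : Type} [TopologicalSpace B]
    (σ : Bun B) where
  q : C(S, B)
  u : Fin (n + 1) → C(S, σ.W)
  l : Fin (n + 1) → C(S, σ.W →L[ℂ] ℂ)
  surj : Function.Surjective q
  lu : ∀ s b c, l b s (u c s) = (if b = c then 1 else 0) - ((n + 1 : ℕ) : ℂ)⁻¹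
  su : ∀ s, ∑ b, u b s = 0
  sl : ∀ s, ∑ b, l b s = 0
  pq : ∀ s, σ.p (q s) = ∑ b, (l b s).smulRight (u b s)
  fib : ∀ s s', q s = q s' → ∃ e : Fin (n + 1) ≃ Fin (n + 1),
    ∀ b, u b s' = u (e b) s ∧ l b s' = l (e b) s

/-- The geometry of lens spaces. -/
def S_D1 : Prop :=
  ∀ n N m : ℕ, 1 ≤ n → (∃ (S : Type) (_ : TopologicalSpace S) (_ : CompactSpace S),
      Nonempty (Cov n S (red n (n + 1) N m))) ∧
    (red n (n + 1) N m).Split (fun a : Fin n => (tpw (a + 1) N m).pull (LS.π (n + 1) N m)) ∧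
    (1 ≤ m → m ≤ N → Nonempty (LS (n + 1) N m))

variable [Fact Core]

/-- The Euler classes of the tensor powers. -/
def S_Tw : Prop :=
  ∀ a, IsFGL a → ∀ n N m : ℕ, eu (tpw n N m) = nm (cf (toU (CP N m)) a) (eu (taut N m)) n

/-- The Euler class of the tautological bundle on the lens space. -/
def vv (p N m : ℕ) : h (LS p N m) := eu ((taut N m).pull (LS.π p N m))

/-- The powers `x ^ (n + 1)` on an arbitrary space. -/
def pw {X : Type} [TopologicalSpace X] (x : h X) : ℕ → h X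
  | 0 => x
  | n + 1 => prod (ContinuousMap.id X) (ContinuousMap.id X) x (pw x n)

open BD (AA cr Hi slice czero dual)

/-- The division lemma. -/
def S_D2 : Prop :=
  ∀ a, IsFGL a → ∀ (p : ℕ) (X : Type) [TopologicalSpace X] [T2Space X] [LocallyCompactSpace X]
    (N m : ℕ), m + 2 ≤ N → ∀ y : h (LS p N (m + 2) × X),
    act ContinuousMap.fst (vv p N (m + 2)) y = 0 →
    ∃ y' : h X, pull ((LS.incl p N (Nat.le_add_right m 2)).prodMap (ContinuousMap.id X)) y =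
      cr (twn (cf (toU (LS p N m)) a) p (vv p N m)) y'

/-- The descent on the exponent. -/
def S_D3 : Prop :=
  ∀ a, IsFGL a → ∀ (p : ℕ) (X : Type) [TopologicalSpace X] [T2Space X] [LocallyCompactSpace X]
    (R : AddSubgroup (h X)), (∀ i j, ∀ x ∈ R, act (toPt X) (a i j) x ∈ R) →
    (∀ d, ∀ x ∈ R, part d x ∈ R) → (∀ x : h X, p • x ∈ R) → ∀ d : ℤ,
    (∀ e > d, ∀ x, IsDeg e x → x ∈ R) → ∀ (N k : ℕ), 2 * k + 1 ≤ N → ∀ (b : LS p N 1)
    (z : h (LS p N (2 * k + 1) × X)),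
    act ContinuousMap.fst (vv p N (2 * k + 1) ^ k) z ∈ Hi a (vv p N (2 * k + 1)) X d →
    part d (pull (slice X (LS.incl p N (Nat.le_add_left 1 (2 * k)) b)) z) ∈ R

/-- The Euler class of the bundle of homomorphisms from a sum of line bundles. -/
def S_D4 : Prop :=
  ∀ a, IsFGL a → ∀ {B : Type} [TopologicalSpace B] [CompactSpace B] [T2Space B] (σ : Bun B)
    (n : ℕ) (L : Fin n → Bun B) (v : h B), σ.Split L → (∀ i, (L i).Rk 1) →
    (∀ i, eu (dual (L i)) ∈ AA a v) →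
    (∀ V : FD, eu (σ.hom (Bun.triv B V)) = (∏ i, eu (dual (L i))) ^ V.dim) ∧
    ∀ {K : Type} [TopologicalSpace K] [CompactSpace K] [T2Space K] (ξ : Bun K) (k : ℕ), ξ.Rk k →
      eu ((σ.pull ContinuousMap.fst).hom (ξ.pull ContinuousMap.snd)) -
        cr ((∏ i, eu (dual (L i))) ^ k) (1 : h K) ∈ Hi a v K 0

/-- The cocycle with `n + 1` points. -/
abbrev mult {X : Type} (c : Raw X) (n : ℕ) : Raw X :=
  ⟨⟨Fin (n + 1) → c.V⟩, ⟨Fin (n + 1) → c.W⟩, {z | ∀ b, (z.1, z.2 b) ∈ c.O},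
    fun z => ContinuousLinearMap.pi fun b => c.p (z.1, z.2 b) ∘L ContinuousLinearMap.proj b,
    fun z b => c.s (z.1, z.2 b)⟩

/-- The class of the cocycle with `n + 1` points. -/
def S_Mult : Prop :=
  ∀ {X : Type} [TopologicalSpace X] [T2Space X] (c : Raw X), c.Good → ∀ n,
    (mult c n).Good ∧ cls (mult c n) = pw (cls c) n

/-- The cyclic power construction. -/
def S_D5 : Prop :=
  ∀ {S B X : Type} [TopologicalSpace S] [CompactSpace S] [TopologicalSpace B] [CompactSpace B]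
    [T2Space B] [TopologicalSpace X] [T2Space X] (n : ℕ) (σ : Bun B) (_ : Cov n S σ) (c : Raw X),
    c.Good → (czero σ c).Good ∧ ∃ P : h (B × X),
      eul ((σ.pull ContinuousMap.fst).hom (Bun.triv (B × X) c.V)) P = cls (czero σ c) ∧
      ∀ b, pull (slice X b) P = pw (cls c) n

/-- The class on the zero section. -/
def S_D6 : Prop :=
  ∀ (a : ℕ → ℕ → UU) {B X : Type} [TopologicalSpace B] [CompactSpace B] [T2Space B]
    [TopologicalSpace X] [T2Space X] [LocallyCompactSpace X] (σ : Bun B) (v w : h B) (c : Raw X)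
    (k : ℕ) (d : ℤ),
    (∀ {K : Type} [TopologicalSpace K] [CompactSpace K] [T2Space K] (ξ : Bun K), ξ.Rk k →
      eu ((σ.pull ContinuousMap.fst).hom (ξ.pull ContinuousMap.snd)) - cr w (1 : h K) ∈
        Hi a v K 0) →
    c.Good → (czero σ c).Good → (∀ z ∈ c.O, rk (c.p z) = k) → (k : ℤ) = d + c.V.dim →
    cls (czero σ c) - cr w (cls c) ∈ Hi a v X d

/-- The duals of the tensor powers on the lens space. -/
def S_D7 : Prop :=
  ∀ a, IsFGL a → ∀ n N m : ℕ,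
    (∀ i : Fin n, eu (dual ((tpw (i + 1) N m).pull (LS.π (n + 1) N m))) ∈ AA a (vv (n + 1) N m)) ∧
    ∃ θ : h (LS (n + 1) N m),
      ∏ i : Fin n, eu (dual ((tpw (i + 1) N m).pull (LS.π (n + 1) N m))) =
        vv (n + 1) N m ^ n * θ ∧
      ∀ b : LS (n + 1) N m, pullR (ContinuousMap.const Unit b) (vv (n + 1) N m) = 0 ∧
        pullR (ContinuousMap.const Unit b) θ = (n.factorial : UU)

/-- The descent at the prime `n + 1`. -/
def S_Q : Prop :=
  ∀ a, IsFGL a → ∀ n : ℕ, (n + 1).Prime → ∀ (X : Type) [TopologicalSpace X] [T2Space X]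
    [LocallyCompactSpace X] (R : AddSubgroup (h X)),
    (∀ i j, ∀ x ∈ R, act (toPt X) (a i j) x ∈ R) → (∀ d, ∀ x ∈ R, part d x ∈ R) →
    (∀ x : h X, (n + 1) • x ∈ R) → ∀ d ≤ 0, (∀ e > d, ∀ x, IsDeg e x → x ∈ R) → ∀ x, IsDeg d x →
    (if d = 0 then pw x n - x else x) ∈ R

def S_QA : Prop :=
  ∀ a, IsFGL a → ∀ p : ℕ, p.Prime →
    (∀ u : UU, ∃ c ∈ Subring.closure (range fun q : ℕ × ℕ => a q.1 q.2), ∃ y, u = c + p * y) ∧
    (∀ u : UU, p * u = 0 → u = 0) ∧ Function.Bijective fun x : h (Unit × ℝ) => p • x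

def S_Reg : Prop :=
  ∀ a, IsFGL a → ∀ p : ℕ, p.Prime → ∀ r, Reg (vp a p) r UU ∧
    (1 : UU) ∉ Ideal.span (vp a p '' Iio r) ∧ Reg (vp a p) r (Mod (toPt Unit))

end

end Pool.Agent.MP_826def_gt.PP
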