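import Pool.Agent.MP_826def_gt.PP.Rate

/-! The rate for all groups whose order is divisible by a given prime. -/

namespace Pool.Agent.MP_826def_gt.PP

theorem rate_dvd (h : S_Rate) (r p : ℕ) (hr : 2 ≤ r) (hp : p.Prime) : ∃ C : ℝ,
    ∀ (G : Type) [Group G] [Fintype G], p ∣ Fintype.card G → ∀ n : ℕ, 1 ≤ n →
      |(H44.alpha G r n : ℝ) - (n : ℝ) / (r : ℝ)| ≤ C * (1 + Real.log n) := by
  classical
  choose C hC using fun q : {q : ℕ // q.Prime} => h r q.1 hr q.2
  refine ⟨∑ q ∈ (Finset.range (p + 1)).subtype Nat.Prime, |C q|, fun G _ _ hG n hn => ?_⟩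
  have h1 : Fintype.card G ≠ 1 := fun e => hp.one_lt.ne' (Nat.dvd_one.1 (e ▸ hG))
  refine (hC ⟨_, Nat.minFac_prime h1⟩ G rfl n hn).trans (mul_le_mul_of_nonneg_right
    ((le_abs_self _).trans (Finset.single_le_sum (f := fun q => |C q|) (fun _ _ => abs_nonneg _) ?_))
    (add_nonneg zero_le_one (Real.log_natCast_nonneg n)))
  exact Finset.mem_subtype.2 (Finset.mem_range.2 (Nat.lt_succ_of_le
    (Nat.minFac_le_of_dvd hp.two_le hG)))

end Pool.Agent.MP_826def_gt.PP
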