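import Pool.Agent.MP_826def_gt.PP.Alg
import Pool.Agent.MP_826def_gt.PG.Ser

/-!
Basic facts on the multiples of a nilpotent element for a formal group law.
-/

namespace Pool.Agent.MP_826def_gt.PP

open MU BG Finset PowerSeries

noncomputable section

variable {A : Type 1} [CommRing A] {a : ℕ → ℕ → A}

theorem ns_eq (h : US a) (n : ℕ) : ns a n = PG.ps a n := by
  induction n with
  | zero => rfl
  | succ n ih =>
    ext m
    rw [ns, PG.ps, coeff_mk, coeff_mk, ih, sum_comm]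
    exact sum_congr rfl fun i _ => sum_congr rfl fun j _ => by rw [h.2, mul_comm (X ^ j)]

theorem wn_eq (h : US a) (n m : ℕ) : wn a n m = PG.pc a n m := by
  rw [wn, ns_eq h, PG.pc]

theorem vp_eq (h : US a) (p k : ℕ) : vp a p k = PG.vp p a k := wn_eq h _ _

theorem nm_mul (h : US a) {x : A} (hx : IsNilpotent x) (n : ℕ) : nm a x n = PG.mul a n x := by
  obtain ⟨N, hN⟩ := hx
  induction n with
  | zero => rfl
  | succ n ih => rw [nm, PG.mul, ih, fm_comm a h.2 ⟨N, hN⟩ ⟨N, (PG.mul_ev h.1 hN n).2⟩]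

theorem nm_nil (h : US a) {x : A} (hx : IsNilpotent x) (n : ℕ) : IsNilpotent (nm a x n) := by
  rw [nm_mul h hx]
  obtain ⟨N, hN⟩ := hx
  exact ⟨N, (PG.mul_ev h.1 hN n).2⟩

theorem us_cf {U : Type 1} [CommRing U] (φ : U →+* A) {a : ℕ → ℕ → U} (h : FG a) :
    US (cf φ a) :=
  ⟨fun i => by simp only [cf, h.unit]; split_ifs <;> simp, fun i j => by rw [cf, cf, h.symm]⟩

theorem twn_eq (a : ℕ → ℕ → A) (n : ℕ) (x : A) (N : ℕ) (hx : x ^ N = 0) :
    twn a n x = ∑ m ∈ range N, wn a n (m + 1) * x ^ m := by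
  unfold twn
  apply finsum_eq_sum_of_support_subset
  intro m h
  simp only [Function.mem_support, ne_eq] at h
  simp only [coe_range, Set.mem_Iio]
  by_contra hm
  exact h (by rw [pow_eq_zero_of_le (not_lt.1 hm) hx]; simp)

theorem ns_map {B : Type 1} [CommRing B] (φ : A →+* B) (a : ℕ → ℕ → A) (n : ℕ) :
    ns (cf φ a) n = PowerSeries.map φ (ns a n) := by
  induction n with
  | zero => simp [ns]
  | succ n ih =>
    ext m
    rw [ns, ns, coeff_map, coeff_mk, coeff_mk, ih, map_sum]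
    refine sum_congr rfl fun i _ => ?_
    rw [map_sum]
    refine sum_congr rfl fun l _ => ?_
    rw [map_mul φ, ← coeff_map, map_mul (PowerSeries.map φ), map_pow (PowerSeries.map φ),
      map_pow (PowerSeries.map φ), map_X, cf]

theorem map_wn {B : Type 1} [CommRing B] (φ : A →+* B) (a : ℕ → ℕ → A) (n m : ℕ) :
    φ (wn a n m) = wn (cf φ a) n m := by
  rw [wn, wn, ns_map, coeff_map]

theorem wn_zero (h : US a) (n : ℕ) : wn a n 0 = 0 := by rw [wn_eq h, PG.pc_zero h.1]

theorem wn_one (h : US a) (n : ℕ) : wn a n 1 = n := by rw [wn_eq h, PG.pc_one h.1 h.2]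

theorem nm_sum (h : US a) (n : ℕ) {x : A} {N : ℕ} (hx : x ^ N = 0) :
    nm a x n = ∑ m ∈ range N, wn a n m * x ^ m := by
  rw [nm_mul h ⟨N, hx⟩, (PG.mul_ev h.1 hx n).1, PG.ev_apply]
  exact sum_congr rfl fun m _ => by rw [wn_eq h, PG.pc]

theorem nm_eq (h : US a) (n : ℕ) (x : A) (hx : IsNilpotent x) :
    nm a x n = x * twn a n x ∧ x ∣ twn a n x - n := by
  obtain ⟨N, hN⟩ := hx
  have h1 : x ^ (N + 1) = 0 := pow_eq_zero_of_le (by omega) hN
  constructor
  · rw [nm_sum h n h1, twn_eq a n x N hN, sum_range_succ', wn_zero h, zero_mul, add_zero, mul_sum]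
    exact sum_congr rfl fun m _ => by ring
  · rw [twn_eq a n x _ h1, sum_range_succ', zero_add, wn_one h, pow_zero, mul_one,
      add_sub_cancel_right]
    exact dvd_sum fun m _ => Dvd.intro (wn a n (m + 1 + 1) * x ^ m) (by ring)

theorem nm_add {U : Type 1} [CommRing U] (φ : U →+* A) {a : ℕ → ℕ → U} (h : FG a) (x : A)
    (hx : IsNilpotent x) (m n : ℕ) :
    nm (cf φ a) x (m + n) = Fm (cf φ a) (nm (cf φ a) x m) (nm (cf φ a) x n) := by
  have hu := us_cf φ h
  induction m with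
  | zero =>
    obtain ⟨S, e⟩ := fm_split _ hu.1 hu.2 (IsNilpotent.zero (R := A)) (nm_nil hu hx n)
    rw [zero_add, nm, e]
    ring
  | succ m ih =>
    rw [Nat.add_right_comm, nm, nm, ih, h.assoc A φ _ _ _ hx (nm_nil hu hx m) (nm_nil hu hx n)]

theorem wn_grad (D : ℤ → AddSubgroup A) (h1 : 1 ∈ D 0)
    (hm : ∀ d e x y, x ∈ D d → y ∈ D e → x * y ∈ D (d + e)) (ha : ∀ i j : ℕ, a i j ∈ D (1 - i - j))
    (n m : ℕ) : wn a n m ∈ D (1 - m) := by
  have mul : ∀ (P Q : PowerSeries A) (d e : ℤ), (∀ m : ℕ, coeff m P ∈ D (d - m)) →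
      (∀ m : ℕ, coeff m Q ∈ D (e - m)) → ∀ m : ℕ, coeff m (P * Q) ∈ D (d + e - m) := by
    intro P Q d e hP hQ m
    rw [coeff_mul]
    refine sum_mem fun q hq => ?_
    have e1 := mem_antidiagonal.1 hq
    have := hm _ _ _ _ (hP q.1) (hQ q.2)
    rwa [show d - q.1 + (e - q.2) = d + e - m by omega] at this
  have pow : ∀ P : PowerSeries A, (∀ m : ℕ, coeff m P ∈ D (1 - m)) →
      ∀ i m : ℕ, coeff m (P ^ i) ∈ D (i - m) := by
    intro P hP i
    induction i with
    | zero =>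
      intro m
      rw [pow_zero, coeff_one]
      split_ifs with h
      · subst h
        simpa using h1
      · exact zero_mem _
    | succ i ih =>
      intro m
      rw [pow_succ, Nat.cast_succ]
      exact mul _ _ _ _ ih hP m
  have hX : ∀ m : ℕ, coeff m (X : PowerSeries A) ∈ D (1 - m) := fun m => by
    rw [coeff_X]
    split_ifs with h
    · subst h
      simpa using h1
    · exact zero_mem _
  induction n generalizing m with
  | zero => simp [wn, ns]
  | succ n ih =>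
    rw [wn, ns, coeff_mk]
    refine sum_mem fun i _ => sum_mem fun j _ => ?_
    have := hm _ _ _ _ (ha i j) (mul _ _ _ _ (pow X hX i) (pow _ ih j) m)
    rwa [show (1 : ℤ) - i - j + (i + j - m) = 1 - m by ring] at this

theorem wn_mem (T : Subring A) (m : ℕ) (h : US a) (hT : ∀ i j, i + j ≤ m → a i j ∈ T) (n : ℕ) :
    wn a n m ∈ T := by
  rw [wn_eq h]
  exact PG.pc_low h.1 (m := m + 1) (fun i l hl => hT i l (by omega)) n m (by omega)

/-- The top part of a coefficient. -/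
theorem wn_top (T : Subring A) (m : ℕ) (h : US a) (hm : 2 ≤ m)
    (hT : ∀ i j, i + j < m → a i j ∈ T) (n : ℕ) :
    wn a n m - ∑ l ∈ range n, ∑ i ∈ range (m + 1), a i (m - i) * (l : A) ^ i ∈ T := by
  rw [wn_eq h]
  exact PG.pc_top h.1 h.2 hm hT n

theorem wn_step (T : Subring A) (m : ℕ) (h : US a) (hm : 2 ≤ m)
    (hT : ∀ i j, i + j < m → a i j ∈ T) (n : ℕ) :
    wn a n m - ∑ s ∈ range n, ∑ i ∈ range (m + 1), (s : A) ^ (m - i) * a i (m - i) ∈ T := by
  have e : ∀ s ∈ range n, ∑ i ∈ range (m + 1), (s : A) ^ (m - i) * a i (m - i) =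
      ∑ i ∈ range (m + 1), a i (m - i) * (s : A) ^ i := fun s _ => by
    rw [← sum_flip fun i => a i (m - i) * (s : A) ^ i]
    refine sum_congr rfl fun i hi => ?_
    have := mem_range.1 hi
    rw [show m - (m - i) = i by omega, h.2 i, mul_comm]
  rw [sum_congr rfl e]
  exact wn_top T m h hm hT n

/-- The coefficients are homogeneous. -/
theorem wn_deg (h : US a) {π : ℕ → A →+ A} (hπ : Grd π)
    (hd : ∀ i j d, i + j = d + 1 → π d (a i j) = a i j) (n d : ℕ) :
    π d (wn a n (d + 1)) = wn a n (d + 1) := by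
  rw [wn_eq h]
  exact PG.pc_deg h.1 hπ hd n d

/-- The linear terms. -/
theorem wn_lin (h : US a) {π : ℕ → A →+ A} (θ : A →+* MvPolynomial ℕ ℤ)
    (hd : ∀ i j d, i + j = d + 1 → π d (a i j) = a i j)
    (hθ : ∀ d u, π d u = u → (θ u).IsWeightedHomogeneous (fun n => n + 1) d)
    (lin : ∀ i j n, 1 ≤ i → 1 ≤ j → i + j = n + 2 →
      (θ (a i j)).coeff (Finsupp.single n 1) = ((n + 2).choose i : ℤ)) (j n : ℕ) :
    (θ (wn a j (n + 2))).coeff (Finsupp.single n 1) = (j : ℤ) ^ (n + 2) - j := by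
  rw [wn_eq h]
  exact PG.pc_lin h.1 h.2 θ hd hθ lin j n

theorem nmAll : S_Nm where
  us := fun φ _ h => us_cf φ h
  twn_eq := twn_eq
  map_wn := map_wn
  map_twn := fun φ a n x ⟨N, hN⟩ => by
    rw [twn_eq a n x N hN, twn_eq (cf φ a) n (φ x) N (by rw [← map_pow, hN, map_zero])]
    simp only [map_sum, map_mul, map_pow, map_wn]
  wn_zero := wn_zero
  wn_one := wn_one
  nm_eq := nm_eq
  nm_add := fun φ _ h => nm_add φ h
  grad := fun D _ => wn_grad D
  mem := wn_mem
  step := wn_step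

end

end Pool.Agent.MP_826def_gt.PP
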