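import Pool.Agent.MP_826def_gt.H72.Pre
import Pool.Agent.MP_826def_gt.BL.All
import Pool.Agent.MP_826def_gt.PP.Nm
import Pool.Agent.MP_826def_gt.PP.Dvd
import Pool.Agent.MP_826def_gt.PD.Main
import Pool.Agent.MP_826def_gt.PQ.QA
import Pool.Agent.MP_826def_gt.PG.Reg
import Pool.Agent.MP_826def_gt.PH.All
import Pool.Agent.MP_826def_gt.PN.TC
import Pool.Agent.MP_826def_gt.PN.NoSec

/-! The main theorem at an arbitrary prime. -/

namespace Pool.Agent.MP_826def_gt.PP

open H72

theorem qa : S_QA := PQ.qa api (PD.quillen api thom gys cpx pbt) (PD.p1 api) gys cpx les gp dg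

theorem noSec : S_NoSec :=
  PN.noSec api (PH.sH nmAll) (PG.reg api nmAll qa gp dg (BL.ln api fgl split ch) cpr) fgl gys cpr

theorem rateAll : S_Rate := rate PN.sTC noSec

end Pool.Agent.MP_826def_gt.PP
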