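import Pool.Agent.MP_826def_gt.PP.Alg
import Pool.Agent.MP_826def_gt.H72.Rate

/-! The rate of convergence for the growth function at an arbitrary prime. -/

namespace Pool.Agent.MP_826def_gt.PP

open Set

theorem logBound (hT : S_TC) (hN : S_NoSec) (r p : ℕ) (hr : 2 ≤ r) (hp : p.Prime) : ∃ C : ℕ,
    ∀ (G : Type) [Group G] [Fintype G], (Fintype.card G).minFac = p → ∀ k : ℕ,
      ((r * k : ℕ) : ℕ∞) ≤ H44.TC r (H44.BG G k) + ((C * (1 + Nat.log 2 k) : ℕ) : ℕ∞) := by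
  let i₀ : Fin r := ⟨0, by omega⟩
  let i₁ : Fin r := ⟨1, by omega⟩
  have hi : i₀ ≠ i₁ := fun e => zero_ne_one (congrArg Fin.val e)
  obtain ⟨c, hc⟩ := hN p hp r i₀ i₁ hi
  refine ⟨r * ((2 * (p * r) + 2) * (c + 1) + 2), fun G _ _ hG k => ?_⟩
  obtain ⟨l, hl⟩ : ∃ l, l = 1 + Nat.log 2 k := ⟨_, rfl⟩
  obtain ⟨s, hs⟩ : ∃ s, s = (c + 1) * l := ⟨_, rfl⟩
  have l1 : 1 ≤ l := by omega
  have s1 : 0 < s := hs ▸ Nat.mul_pos (by omega) l1
  have rs : r * s ≠ 0 := (Nat.mul_pos (by omega) s1).ne'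
  obtain ⟨L, hL⟩ : ∃ L, L = Nat.log p (r * s) + 1 := ⟨_, rfl⟩
  have p1 : r * s < p ^ L := hL ▸ Nat.lt_pow_succ_log_self hp.one_lt _
  have p2 : p ^ L ≤ p * (r * s) := by
    rw [hL, pow_succ, mul_comm]
    exact Nat.mul_le_mul_left p (Nat.pow_log_le_self p rs)
  obtain ⟨j', hj'⟩ : ∃ j', j' = ((k + 1) / 2 - s - 1) / p ^ L := ⟨_, rfl⟩
  obtain ⟨j, hj⟩ : ∃ j, j = p ^ L * j' := ⟨_, rfl⟩
  have q1 : j ≤ (k + 1) / 2 - s - 1 := by rw [hj, hj']; exact Nat.mul_div_le _ _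
  have q2 : (k + 1) / 2 - s - 1 < j + p ^ L := by
    rw [hj, hj']; exact Nat.lt_mul_div_succ _ (pow_pos hp.pos _)
  have key : ((2 * (r * j) : ℕ) : ℕ∞) ≤ H44.TC r (H44.BG G k) := by
    rcases Nat.eq_zero_or_pos j' with h0 | h0
    · simp [hj, h0]
    have j1 : 0 < j := hj ▸ Nat.mul_pos (pow_pos hp.pos _) h0
    refine le_iInf₂ fun n hn => Nat.cast_le.2 (not_lt.1 fun hlt => ?_)
    refine hc L j' s h0 p1 ?_ (hT p hp G hG r i₀ _ k n _ ?_ ?_ hn)
    · have : Nat.log 2 (2 * (p ^ L * j')) ≤ Nat.log 2 k := Nat.log_mono_right (by omega)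
      calc c * (1 + Nat.log 2 (2 * (p ^ L * j'))) ≤ (c + 1) * l :=
            Nat.mul_le_mul (by omega) (by omega)
        _ = s := hs.symm
    · omega
    · rw [BI.sum_ex hi, ← hj]
      omega
  refine le_trans ?_ (add_le_add_left key _)
  rw [← Nat.cast_add, Nat.cast_le, ← hl]
  have q3 : k ≤ 2 * j + ((2 * (p * r) + 2) * s + 2 * l) := by
    have : (2 * (p * r) + 2) * s = 2 * (p * (r * s)) + 2 * s := by ring
    omega
  calc r * k ≤ r * (2 * j + ((2 * (p * r) + 2) * s + 2 * l)) := Nat.mul_le_mul_left r q3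
    _ = _ := by rw [hs]; ring

theorem rate (hT : S_TC) (hN : S_NoSec) : S_Rate := by
  intro r p hr hp
  obtain ⟨C, hC⟩ := logBound hT hN r p hr hp
  obtain ⟨k₀, hk⟩ := H72.small_log C
  refine ⟨2 * C + k₀ + 1, fun G _ _ hG n hn => ?_⟩
  classical
  have r0 : (0 : ℝ) < r := Nat.cast_pos.2 (by omega)
  have r1 : (1 : ℝ) ≤ r := Nat.one_le_cast.2 (by omega)
  have up : {k : ℕ | 1 ≤ k ∧ H44.TC r (H44.BG G k) ≤ n} ⊆
      Icc 1 ((n + C * (1 + Nat.log 2 n)) / r + k₀) := fun k h => by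
    refine ⟨h.1, ?_⟩
    have h1 : r * k ≤ n + C * (1 + Nat.log 2 k) := by
      have := (hC G hG k).trans (add_le_add_left h.2 _)
      rwa [← Nat.cast_add, Nat.cast_le] at this
    rcases le_total k k₀ with h2 | h2
    · exact h2.trans (Nat.le_add_left _ _)
    · have h3 := hk k h2
      have h4 : 2 * k ≤ r * k := Nat.mul_le_mul_right k hr
      have h5 := Nat.mul_le_mul_left C
        (Nat.add_le_add_left (Nat.log_mono_right (b := 2) (show k ≤ n by omega)) 1)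
      refine le_trans ((Nat.le_div_iff_mul_le (by omega)).2 ?_) (Nat.le_add_right _ _)
      rw [mul_comm]
      omega
  have lo : Icc 1 (n / r) ⊆ {k : ℕ | 1 ≤ k ∧ H44.TC r (H44.BG G k) ≤ n} := fun k h =>
    ⟨h.1, (iInf₂_le (r * k) (H44.upper r k)).trans (Nat.cast_le.2 (by
      rw [mul_comm]
      exact (Nat.le_div_iff_mul_le (by omega)).1 h.2))⟩
  have a1 : H44.alpha G r n ≤ (n + C * (1 + Nat.log 2 n)) / r + k₀ := by
    simpa [H44.alpha] using ncard_le_ncard up (finite_Icc _ _)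
  have a2 : n / r ≤ H44.alpha G r n := by
    simpa [H44.alpha] using ncard_le_ncard lo ((finite_Icc _ _).subset up)
  have l0 : 0 ≤ Real.log n := Real.log_natCast_nonneg n
  have l1 : (Nat.log 2 n : ℝ) ≤ 2 * Real.log n := by
    have h1 : ((2 ^ Nat.log 2 n : ℕ) : ℝ) ≤ n := Nat.cast_le.2 (Nat.pow_log_le_self 2 (by omega))
    have h2 := Real.log_le_log (by positivity) h1
    rw [Nat.cast_pow, Real.log_pow] at h2
    have h3 := Real.log_two_gt_d9
    have h4 : (0 : ℝ) ≤ Nat.log 2 n := Nat.cast_nonneg _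
    push_cast at h2
    nlinarith
  have c0 : (0 : ℝ) ≤ C := Nat.cast_nonneg _
  have k0 : (0 : ℝ) ≤ k₀ := Nat.cast_nonneg _
  have b1 : (H44.alpha G r n : ℝ) ≤ n / r + C * (1 + Nat.log 2 n) + k₀ := by
    have h1 : (H44.alpha G r n : ℝ) ≤ ((n + C * (1 + Nat.log 2 n)) / r : ℕ) + k₀ := by
      exact_mod_cast a1
    have h2 : (((n + C * (1 + Nat.log 2 n)) / r : ℕ) : ℝ) ≤ (n + C * (1 + Nat.log 2 n)) / r := by
      exact_mod_cast Nat.cast_div_le (α := ℝ)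
    have h3 : (C * (1 + Nat.log 2 n) : ℝ) / r ≤ C * (1 + Nat.log 2 n) :=
      div_le_self (by positivity) r1
    rw [add_div] at h2
    linarith
  have b2 : (n : ℝ) / r ≤ H44.alpha G r n + 1 := by
    have h1 : ((n / r : ℕ) : ℝ) ≤ H44.alpha G r n := Nat.cast_le.2 a2
    have h2 : (n : ℝ) ≤ ((n / r : ℕ) + 1) * r := by
      exact_mod_cast (mul_comm r _ ▸ Nat.lt_mul_div_succ n (show 0 < r by omega)).le
    rw [div_le_iff₀ r0]
    nlinarith
  rw [abs_le]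
  constructor <;> nlinarith [mul_nonneg c0 l0, mul_nonneg k0 l0, mul_le_mul_of_nonneg_left l1 c0]

end Pool.Agent.MP_826def_gt.PP
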